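import Mathlib

set_option autoImplicit false

namespace Pool.Agent.Results.MP_6bd103_gt.AlephOneCovers

open Set Cardinal

universe u v

/-! ## Definitions used in the statement -/

/-- `U` is an open cover of `X`. -/
def IsOpenCov {X : Type u} [TopologicalSpace X] (U : Set (Set X)) : Prop :=
  (∀ s ∈ U, IsOpen s) ∧ ⋃₀ U = Set.univ

/-- `V` is a locally countable open refinement of `U`. -/
def IsLocallyCountableRefinement {X : Type u} [TopologicalSpace X] (V U : Set (Set X)) : Prop :=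
  IsOpenCov V ∧ (∀ s ∈ V, ∃ t ∈ U, s ⊆ t) ∧
    ∀ x, ∃ N : Set X, IsOpen N ∧ x ∈ N ∧ {s ∈ V | (s ∩ N).Nonempty}.Countable

/-- Paralindelöf spaces: every open cover has a locally countable open refinement. -/
def Paralindelof (X : Type u) [TopologicalSpace X] : Prop :=
  ∀ U : Set (Set X), IsOpenCov U → ∃ V, IsLocallyCountableRefinement V U

/-! ## Proof -/

theorem count_Iio (b : (ℵ₁ : Cardinal.{v}).ord.ToType) : (Iio b).Countable := by
  rw [← Cardinal.le_aleph0_iff_set_countable]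
  exact Order.lt_succ_iff.1
    ((Cardinal.mk_Iio_toType_ord_lt b).trans_eq Cardinal.succ_aleph0.symm)

/-- countable subsets of `ω₁` are bounded -/
theorem bounded (S : Set (ℵ₁ : Cardinal.{v}).ord.ToType) (hS : S.Countable) :
    ∃ b, ∀ a ∈ S, a < b := by
  by_contra hcon
  push Not at hcon
  have hcount : ∀ a : (ℵ₁ : Cardinal.{v}).ord.ToType, (Iic a).Countable := by
    intro a
    rw [← Iio_insert]
    exact (count_Iio a).insert a
  have h2 : (Set.univ : Set (ℵ₁ : Cardinal.{v}).ord.ToType) ⊆ ⋃ a ∈ S, Iic a := by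
    intro b _
    obtain ⟨a, ha, hab⟩ := hcon b
    exact mem_biUnion ha hab
  have h3 : (Set.univ : Set (ℵ₁ : Cardinal.{v}).ord.ToType).Countable :=
    (hS.biUnion fun a _ => hcount a).mono h2
  rw [← Cardinal.le_aleph0_iff_set_countable, Cardinal.mk_univ, Cardinal.mk_ord_toType] at h3
  exact absurd h3 (not_le.2 Cardinal.aleph0_lt_aleph_one)

variable {X : Type u} {Y : Type v} [TopologicalSpace X] [TopologicalSpace Y]

theorem main (hX : Paralindelof X) (f : X → Y) (hf : Continuous f) (hc : IsClosedMap f)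
    (hs : Function.Surjective f) (hfib : ∀ y, IsLindelof (f ⁻¹' {y}))
    (U : Set (Set Y)) (hU : IsOpenCov U) (hcard : #U ≤ ℵ₁) :
    ∃ V, IsLocallyCountableRefinement V U := by
  classical
  have hemb : #U ≤ #((ℵ₁ : Cardinal.{v}).ord.ToType) := by rwa [Cardinal.mk_ord_toType]
  obtain ⟨e⟩ := hemb
  obtain ⟨V, ⟨hVo, hVc⟩, hVr, hVl⟩ := hX ((fun s => f ⁻¹' s) '' U) ⟨by
    rintro _ ⟨s, hs, rfl⟩
    exact (hU.1 s hs).preimage hf, by
    rw [eq_univ_iff_forall]
    intro x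
    have : f x ∈ ⋃₀ U := by rw [hU.2]; trivial
    obtain ⟨s, hs, hx⟩ := this
    exact ⟨_, ⟨s, hs, rfl⟩, hx⟩⟩
  have hidx : ∀ s : V, ∃ t : U, (s : Set X) ⊆ f ⁻¹' (t : Set Y) := by
    rintro ⟨s, hs⟩
    obtain ⟨_, ⟨t, ht, rfl⟩, h⟩ := hVr s hs
    exact ⟨⟨t, ht⟩, h⟩
  choose ix hix using hidx
  let W : U → Set X := fun t => ⋃ s : V, ⋃ _ : ix s = t, (s : Set X)
  have hWo : ∀ t, IsOpen (W t) := fun t => isOpen_iUnion fun s => isOpen_iUnion fun _ => hVo s s.2
  have hWf : ∀ t, W t ⊆ f ⁻¹' (t : Set Y) := by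
    intro t x hx
    simp only [W, mem_iUnion] at hx
    obtain ⟨s, rfl, hx⟩ := hx
    exact hix s hx
  have hWne : ∀ x, ∃ t, x ∈ W t := by
    intro x
    have : x ∈ ⋃₀ V := by rw [hVc]; trivial
    obtain ⟨s, hs, hx⟩ := this
    exact ⟨ix ⟨s, hs⟩, mem_iUnion.2 ⟨⟨s, hs⟩, mem_iUnion.2 ⟨rfl, hx⟩⟩⟩
  have hWl : ∀ x, ∃ N : Set X, IsOpen N ∧ x ∈ N ∧ {t | (W t ∩ N).Nonempty}.Countable := by
    intro x
    obtain ⟨N, hNo, hxN, hN⟩ := hVl x
    refine ⟨N, hNo, hxN, ?_⟩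
    have h1 : ({s : V | ((s : Set X) ∩ N).Nonempty}).Countable := by
      have := hN.preimage (f := fun s : V => (s : Set X)) Subtype.val_injective
      refine this.mono fun s hs => ?_
      exact ⟨s.2, hs⟩
    refine (h1.image ix).mono ?_
    rintro t ⟨z, hz, hzN⟩
    simp only [W, mem_iUnion] at hz
    obtain ⟨s, h, hzs⟩ := hz
    exact ⟨s, ⟨z, hzs, hzN⟩, h⟩
  choose N hNo hxN hNc using hWl
  let C : (ℵ₁ : Cardinal.{v}).ord.ToType → Set X := fun a => {x | ∀ t, x ∈ W t → e t < a}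
  have hCc : ∀ a, IsClosed (C a) := by
    intro a
    have : C a = (⋃ t : U, ⋃ _ : ¬ e t < a, W t)ᶜ := by
      ext x
      simp only [C, mem_ofPred_eq, mem_compl_iff, mem_iUnion, not_exists]
      constructor
      · intro h t ht hx
        exact ht (h t hx)
      · intro h t hx
        by_contra ht
        exact h t ht hx
    rw [this, isClosed_compl_iff]
    exact isOpen_iUnion fun t => isOpen_iUnion fun _ => hWo t
  have hCm : ∀ a b, a ≤ b → C a ⊆ C b := fun a b hab x hx t ht => (hx t ht).trans_le hab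
  -- every fibre has an open neighbourhood inside some `C b`
  have hfibre : ∀ y, ∃ b, ∃ G : Set X, IsOpen G ∧ f ⁻¹' {y} ⊆ G ∧ G ⊆ C b := by
    intro y
    obtain ⟨T, hT, -, hTc⟩ := (hfib y).elim_nhds_subcover N
      (fun x _ => (hNo x).mem_nhds (hxN x))
    have hcount : (⋃ x ∈ T, {t | (W t ∩ N x).Nonempty}).Countable :=
      hT.biUnion fun x _ => hNc x
    obtain ⟨b, hb⟩ := bounded (e '' ⋃ x ∈ T, {t | (W t ∩ N x).Nonempty}) (hcount.image e)
    refine ⟨b, ⋃ x ∈ T, N x, isOpen_biUnion fun x _ => hNo x, hTc, ?_⟩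
    intro z hz t ht
    obtain ⟨x, hx, hzx⟩ := mem_iUnion₂.1 hz
    exact hb _ ⟨t, mem_iUnion₂.2 ⟨x, hx, ⟨z, ht, hzx⟩⟩, rfl⟩
  have hex : ∀ y, ∃ a, y ∈ f '' C a := by
    intro y
    obtain ⟨b, G, -, h1, h2⟩ := hfibre y
    obtain ⟨x, rfl⟩ := hs y
    exact ⟨b, x, h2 (h1 rfl), rfl⟩
  refine ⟨range fun t : U => (t : Set Y) \ f '' C (e t), ⟨?_, ?_⟩, ?_, ?_⟩
  · rintro _ ⟨t, rfl⟩
    exact (hU.1 t t.2).sdiff (hc _ (hCc _))
  · rw [eq_univ_iff_forall]
    intro y
    obtain ⟨a, ha, hmin⟩ :=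
      WellFounded.has_min (wellFounded_lt (α := (ℵ₁ : Cardinal.{v}).ord.ToType))
      {a | y ∈ f '' C a} (hex y)
    obtain ⟨x, hx, rfl⟩ := ha
    obtain ⟨t, ht⟩ := hWne x
    refine ⟨_, ⟨t, rfl⟩, hWf t ht, fun h => ?_⟩
    exact hmin _ h (hx t ht)
  · rintro _ ⟨t, rfl⟩
    exact ⟨t, t.2, sdiff_subset⟩
  · intro y
    obtain ⟨b, G, hGo, h1, h2⟩ := hfibre y
    refine ⟨(f '' Gᶜ)ᶜ, (hc _ hGo.isClosed_compl).isOpen_compl, ?_, ?_⟩
    · rintro ⟨x, hx, hxy⟩
      exact hx (h1 hxy)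
    · have h3 : {t : U | e t < b}.Countable :=
        (count_Iio b).preimage (f := e) e.injective
      refine (h3.image fun t : U => (t : Set Y) \ f '' C (e t)).mono ?_
      rintro _ ⟨⟨t, rfl⟩, z, hz, hzH⟩
      refine ⟨t, ?_, rfl⟩
      by_contra h
      obtain ⟨x, rfl⟩ := hs z
      have hxG : x ∈ G := by
        by_contra hxG
        exact hzH ⟨x, hxG, rfl⟩
      exact hz.2 ⟨x, hCm b (e t) (not_lt.1 h) (h2 hxG), rfl⟩

/-- If `X` is paralindelöf and `f : X → Y` is a closed mapping with Lindelöf fibres (for instance a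
perfect mapping), then every open cover of `Y` having at most `ℵ₁` members has a locally countable
open refinement. In particular `Y` is paralindelöf provided that every open cover of `Y` has a
subcover with at most `ℵ₁` members. -/
theorem result {X : Type u} {Y : Type v} [TopologicalSpace X] [TopologicalSpace Y]
    (hX : Paralindelof X) (f : X → Y) (hf : Continuous f) (hc : IsClosedMap f)
    (hs : Function.Surjective f)
    (hfib : (∀ y, IsCompact (f ⁻¹' {y})) ∨ ∀ y, IsLindelof (f ⁻¹' {y})) :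
    (∀ U : Set (Set Y), IsOpenCov U → #U ≤ ℵ₁ → ∃ V, IsLocallyCountableRefinement V U) ∧
    ((∀ U : Set (Set Y), IsOpenCov U → ∃ U' ⊆ U, IsOpenCov U' ∧ #U' ≤ ℵ₁) →
      Paralindelof Y) := by
  have hfib' : ∀ y, IsLindelof (f ⁻¹' {y}) := by
    rcases hfib with h | h
    · exact fun y => (h y).isLindelof
    · exact h
  refine ⟨fun U hU hcard => main hX f hf hc hs hfib' U hU hcard, fun h U hU => ?_⟩
  obtain ⟨U', hsub, hU', hcard⟩ := h U hU
  obtain ⟨V, hV1, hV2, hV3⟩ := main hX f hf hc hs hfib' U' hU' hcard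
  refine ⟨V, hV1, fun s hs => ?_, hV3⟩
  obtain ⟨t, ht, hst⟩ := hV2 s hs
  exact ⟨t, hsub ht, hst⟩

end Pool.Agent.Results.MP_6bd103_gt.AlephOneCovers
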